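import Pool.Agent.Helper84.FP.Goals

/-! # Packet FQ-PTC: the number of fixed points with a given number of divisors -/

set_option autoImplicit false

namespace Pool.Agent.Helper7.FQ.PTC

open Finset Pool.Agent.Helper91.FP Pool.Agent.Helper84.FP

theorem list_prod (f : ℕ → ℕ) (R : ℕ) : ((List.range R).map f).prod = ∏ j ∈ range R, f j := by
  induction R with
  | zero => simp
  | succ R ih => rw [List.range_succ, List.map_append, List.prod_append, ih, prod_range_succ]; simp

theorem two_mul_le (R : ℕ) (h : 1 ≤ R) : 2 * R ≤ 2 ^ R := by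
  induction R, h using Nat.le_induction with
  | base => norm_num
  | succ R h ih =>
    rw [pow_succ]
    omega

theorem ord_prod {n : ℕ} {q : ℕ → ℕ} (h : IsOrd n q) (f : ℕ → ℕ) :
    ∏ j ∈ range n.primeFactors.card, f (q j) = ∏ p ∈ n.primeFactors, f p := by
  have hinj : Set.InjOn q (range n.primeFactors.card : Set ℕ) := by
    intro i hi j hj hij
    rw [mem_coe, mem_range] at hi hj
    rcases lt_trichotomy i j with h1 | h1 | h1
    · exact absurd hij (h.2.2.1 j hj i h1)
    · exact h1
    · exact absurd hij.symm (h.2.2.1 i hi j h1)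
  have himg : (range n.primeFactors.card).image q = n.primeFactors := by
    apply eq_of_subset_of_card_le
    · intro p hp
      rw [mem_image] at hp
      obtain ⟨j, hj, rfl⟩ := hp
      exact h.2.1 j (mem_range.1 hj)
    · rw [card_image_of_injOn hinj, card_range]
  rw [← himg, prod_image (fun i hi j hj hij => hinj hi hj hij), himg]

/-- the code of `n` -/
noncomputable def code (t : ℕ) (q : ℕ → ℕ → ℕ) (n : ℕ) : ℕ × List ℕ × Bool × Bool :=
  (n.minFac, (List.range n.primeFactors.card).map (fun j => n.factorization (q n j) + 1),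
    decide (t + 1 ∣ n), decide ((t + 1) / 2 ∣ n))

theorem t : S_SIZ → S_MIN → S_OFC → S_ORD → S_UNI → S_PTC := by
  intro hsiz hmin hofc hord huni t
  rcases Set.eq_empty_or_nonempty {n : ℕ | 0 < n ∧ a n = n ∧ n.divisors.card = t} with he | hne
  · rw [he]
    exact ⟨Set.finite_empty, by simp⟩
  have ht : 1 ≤ t := by
    obtain ⟨n, hn, ha, hc⟩ := hne
    have h1 := (hsiz n hn ha).2.2.1
    rw [hc] at h1
    exact le_trans Nat.one_le_two_pow h1
  obtain ⟨hLf, hLc⟩ := hofc t ht
  have hq : ∀ n : ℕ, ∃ q : ℕ → ℕ, 0 < n → a n = n → IsOrd n q := by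
    intro n
    by_cases h : 0 < n ∧ a n = n
    · obtain ⟨q, hq⟩ := hord n h.1 h.2
      exact ⟨q, fun _ _ => hq⟩
    · exact ⟨fun _ => 0, fun h1 h2 => absurd ⟨h1, h2⟩ h⟩
  choose q hq using hq
  set L : Finset (List ℕ) := hLf.toFinset with hL
  set T : Finset (ℕ × List ℕ × Bool × Bool) :=
    Icc 1 (t ^ 2) ×ˢ L ×ˢ (univ : Finset Bool) ×ˢ (univ : Finset Bool) with hT
  have hmaps : ∀ n ∈ {n : ℕ | 0 < n ∧ a n = n ∧ n.divisors.card = t},
      code t q n ∈ (T : Set (ℕ × List ℕ × Bool × Bool)) := by
    rintro n ⟨hn, ha, hc⟩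
    obtain ⟨h2, -, hR, -, -⟩ := hsiz n hn ha
    have hm := hmin n hn ha
    rw [hc] at hR hm
    have h3 := two_mul_le n.primeFactors.card (by omega)
    have hord' := hq n hn ha
    rw [mem_coe, hT]
    unfold code
    rw [mem_product, mem_product, mem_product]
    refine ⟨?_, ?_, mem_univ _, mem_univ _⟩
    · rw [mem_Icc]
      refine ⟨Nat.minFac_pos n, ?_⟩
      have h4 : 2 * n.primeFactors.card ≤ t := le_trans h3 hR
      nlinarith
    · rw [hL, Set.Finite.mem_toFinset]
      refine ⟨?_, ?_⟩
      · intro x hx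
        rw [List.mem_map] at hx
        obtain ⟨j, hj, rfl⟩ := hx
        rw [List.mem_range] at hj
        have h5 := hord'.2.1 j hj
        have h6 : 0 < n.factorization (q n j) :=
          (Nat.prime_of_mem_primeFactors h5).factorization_pos_of_dvd hn.ne'
            (Nat.dvd_of_mem_primeFactors h5)
        omega
      · rw [list_prod, ord_prod hord' (fun p => n.factorization p + 1), ← card_prod hn.ne', hc]
  have hinj : Set.InjOn (code t q) {n : ℕ | 0 < n ∧ a n = n ∧ n.divisors.card = t} := by
    rintro n ⟨hn, ha, hc⟩ m ⟨hm, hb, hd⟩ h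
    unfold code at h
    rw [Prod.mk.injEq, Prod.mk.injEq, Prod.mk.injEq] at h
    obtain ⟨h1, h2, h3, h4⟩ := h
    have hR : n.primeFactors.card = m.primeFactors.card := by
      have := congrArg List.length h2
      simpa using this
    refine huni n m hn ha hm hb (by rw [hc, hd]) hR h1 ?_ ?_ (q n) (q m) (hq n hn ha)
      (hq m hm hb) ?_
    · rw [hc]
      exact decide_eq_decide.1 h3
    · rw [hc]
      exact decide_eq_decide.1 h4
    · intro j hj
      rw [hR] at h2
      have h5 := List.map_inj_left.1 h2 j (List.mem_range.2 (by omega))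
      omega
  refine ⟨Set.Finite.of_injOn hmaps hinj T.finite_toSet, ?_⟩
  refine (Set.ncard_le_ncard_of_injOn (code t q) hmaps hinj T.finite_toSet).trans ?_
  rw [Set.ncard_coe_finset, hT, card_product, card_product, card_product, Nat.card_Icc,
    Finset.card_univ, Fintype.card_bool, hL, ← Set.ncard_eq_toFinset_card _ hLf]
  calc (t ^ 2 + 1 - 1) * ({l : List ℕ | (∀ x ∈ l, 2 ≤ x) ∧ l.prod = t}.ncard * (2 * 2))
      ≤ t ^ 2 * (t ^ 2 * (2 * 2)) := by
        rw [Nat.add_sub_cancel]
        gcongr
    _ = 4 * t ^ 4 := by ring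

end Pool.Agent.Helper7.FQ.PTC
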